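import Pool.Agent.Helper37.KD.DefsC
import Pool.Agent.Helper37.KD.St.A4
import Pool.Agent.Helper37.KD.St.H5

/-! KD Part I, piece H6 -/

namespace KD.I.H6

open Finset KD

/-- lower bound of the entropy from the first moment -/
theorem entropy_lower (d : ℕ) (Cm : ℝ) : ∃ C : ℝ, 0 < C ∧ ∀ (N : ℕ) [NeZero N] (r R : ℝ),
    1 ≤ r → 1 ≤ R → r ≤ N → R ≤ N → ∀ u : GG d N → ℝ, IsP u → (∑ z, u z * nrm r R z ≤ Cm) →
    - Real.log (r ^ d * R ^ d) - C ≤ Ht u := by
  obtain ⟨C5, hC5, h5⟩ := gibbs_Z d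
  refine ⟨|Cm| + |Real.log C5| + 1, by positivity, ?_⟩
  intro N _ r R hr hR hrN hRN u hu hm
  have hg := gibbs u (fun z => - nrm r R z) hu.nn hu.one
  have hZ := (h5 N r R hr hR hrN hRN).1
  have hZpos : 0 < ∑ z : GG d N, Real.exp (- nrm r R z) :=
    Finset.sum_pos (fun z _ => Real.exp_pos _) ⟨0, Finset.mem_univ _⟩
  have hrR : 0 < r ^ d * R ^ d := by positivity
  have hlog : Real.log (∑ z : GG d N, Real.exp (- nrm r R z)) ≤
      Real.log C5 + Real.log (r ^ d * R ^ d) := by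
    rw [← Real.log_mul hC5.ne' hrR.ne']
    exact Real.log_le_log hZpos hZ
  have hneg : ∑ z, u z * (- nrm r R z) = - ∑ z, u z * nrm r R z := by
    rw [← Finset.sum_neg_distrib]
    exact Finset.sum_congr rfl (fun z _ => by ring)
  have h1 := le_abs_self Cm
  have h2 := le_abs_self (Real.log C5)
  have hg' : ∑ z, u z * (- nrm r R z) ≤ Ht u +
      Real.log (∑ z : GG d N, Real.exp (- nrm r R z)) := hg
  linarith

end KD.I.H6
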